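import Pool.Agent.R443.FT3

/-!
MP_07dc7c_nt: for every prime `p ≠ 7`,
`sum_(k<p) (-1)^k (42k+37) a(k) ≡ p (21 (p/7) + 16)` modulo `p^2`, where
`a(n) = sum_k (-16)^k C(n,k)^2 C(n-k,k)^2`.
-/

set_option autoImplicit false

namespace Pool.Agent.Results.MP_07dc7c_nt.SunWeighted

open Finset

/-- `a(n) = sum_(0 ≤ k ≤ n) (-16)^k C(n,k)^2 C(n-k,k)^2`. -/
def a (n : ℕ) : ℤ :=
  ∑ k ∈ range (n + 1), (-16) ^ k * ((Nat.choose n k : ℕ) : ℤ) ^ 2 *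
    ((Nat.choose (n - k) k : ℕ) : ℤ) ^ 2

/-- `S(p) = sum_(0 ≤ k ≤ p-1) (-1)^k (42k+37) a(k)`. -/
def S (p : ℕ) : ℤ := ∑ k ∈ range p, (-1) ^ k * (42 * (k : ℤ) + 37) * a k

theorem result : ∀ p : ℕ, p.Prime → p ≠ 7 →
    S p ≡ (p : ℤ) * (21 * jacobiSym (p : ℤ) 7 + 16) [ZMOD (p : ℤ) ^ 2] := by
  intro p hp _
  have h := Pool.Agent.R443.FT.main hp
  exact (Int.modEq_iff_dvd.mpr h).symm

end Pool.Agent.Results.MP_07dc7c_nt.SunWeighted
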